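import Mathlib

set_option autoImplicit false

namespace Pool.Agent.Results.MP_8835a9_co.Counter

open Matrix

/-- the elementary matrix attached to an entry -/
def A {R : Type} [CommRing R] (a : R) : Matrix (Fin 2) (Fin 2) R := !![a, -1; 1, 0]

/-- the product `A aₙ ⋯ A a₁` attached to the tuple `(a₁, …, aₙ)` -/
def M {R : Type} [CommRing R] (l : List R) : Matrix (Fin 2) (Fin 2) R := (l.map A).reverse.prod

/-- solutions of the equation: the product is plus or minus the identity -/
def IsSol {R : Type} [CommRing R] (l : List R) : Prop := M l = 1 ∨ M l = -1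

/-- `b` is a cyclic rotation of `a` or of the reversal of `a` -/
def Equi {R : Type} (a b : List R) : Prop := a.IsRotated b ∨ a.reverse.IsRotated b

/-- `l` is equivalent to the sum of two solutions `(a₁, xs, aₙ)` and `(b₁, ys, bₘ)`,
both of size at least 3 -/
def Reducible {R : Type} [CommRing R] (l : List R) : Prop :=
  ∃ (a₁ aₙ b₁ bₘ : R) (xs ys : List R), xs ≠ [] ∧ ys ≠ [] ∧
    IsSol (a₁ :: (xs ++ [aₙ])) ∧ IsSol (b₁ :: (ys ++ [bₘ])) ∧
    Equi l ((a₁ + bₘ) :: (xs ++ (aₙ + b₁) :: ys))

theorem M_rep {R : Type} [CommRing R] (k : R) (i : ℕ) : M (List.replicate i k) = A k ^ i := by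
  simp [M]

theorem map_pow_A {R S : Type} [CommRing R] [CommRing S] (f : R →+* S) (k : R) (i : ℕ)
    (r c : Fin 2) : f ((A k ^ i) r c) = (A (f k) ^ i) r c := by
  have h : (A k).map f = A (f k) := by
    ext r c; fin_cases r <;> fin_cases c <;> simp [A]
  have := congrFun (congrFun (Matrix.map_pow (A k) f i) r) c
  rw [h] at this
  exact this

theorem pow_two_A {R : Type} [CommRing R] (i : ℕ) :
    A (2 : R) ^ i = !![(i : R) + 1, -i; i, 1 - i] := by
  induction i with
  | zero => ext r c; fin_cases r <;> fin_cases c <;> simp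
  | succ i ih =>
    rw [pow_succ, ih]
    ext r c; fin_cases r <;> fin_cases c <;> simp [A, Matrix.mul_apply, Fin.sum_univ_two] <;> ring

theorem pow_zero_A (i : ℕ) : A (0 : ZMod 3) ^ i = A (0 : ZMod 3) ^ (i % 4) := by
  have h : A (0 : ZMod 3) ^ 4 = 1 := by decide
  conv_lhs => rw [← Nat.div_add_mod i 4, pow_add, pow_mul, h, one_pow, one_mul]

theorem result (K : ℕ) : ∃ (N : ℕ) (l : List (ZMod N)), 2 ≤ N ∧ 3 ≤ l.length ∧ IsSol l ∧
    ¬ Reducible l ∧ N + K ≤ l.length := by
  obtain ⟨m, hm⟩ : ∃ m, m = 6 * K + 1 := ⟨_, rfl⟩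
  have c3 : Nat.Coprime 3 m := by
    rw [hm, show 6 * K + 1 = 1 + 3 * (2 * K) by ring]; simp
  have c4 : Nat.Coprime 4 m := by
    have : Nat.Coprime 2 m := by rw [hm, show 6 * K + 1 = 1 + 2 * (3 * K) by ring]; simp
    exact Nat.Coprime.pow_left 2 this
  let f3 : ZMod (3 * m) →+* ZMod 3 := ZMod.castHom (Dvd.intro _ rfl) _
  let fm : ZMod (3 * m) →+* ZMod m := ZMod.castHom (Dvd.intro_left _ rfl) _
  let k : ZMod (3 * m) := ((m + 2 : ℕ) : ZMod (3 * m))
  have k3 : f3 k = 0 := by
    simp only [k, map_natCast]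
    rw [ZMod.natCast_eq_zero_iff]; omega
  have km : fm k = 2 := by
    simp only [k, map_natCast]; simp
  have hinj : ∀ x y : ZMod (3 * m), f3 x = f3 y → fm x = fm y → x = y := by
    intro x y h1 h2
    have : NeZero (3 * m) := ⟨by omega⟩
    rw [← sub_eq_zero] at h1 h2 ⊢
    rw [← map_sub] at h1 h2
    generalize x - y = z at h1 h2
    rw [← ZMod.natCast_zmod_val z] at h1 h2 ⊢
    rw [map_natCast, ZMod.natCast_eq_zero_iff] at h1 h2
    rw [ZMod.natCast_eq_zero_iff]
    exact Nat.Coprime.mul_dvd_of_dvd_of_dvd c3 h1 h2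
  refine ⟨3 * m, List.replicate (4 * m) k, by omega, by simp; omega, Or.inl ?_, ?_,
    by simp; omega⟩
  · rw [M_rep]
    ext r c
    refine hinj _ _ ?_ ?_
    · rw [map_pow_A, k3, pow_zero_A, Nat.mul_mod_right, pow_zero]
      fin_cases r <;> fin_cases c <;> simp
    · rw [map_pow_A, km, pow_two_A]
      fin_cases r <;> fin_cases c <;> simp
  · rintro ⟨a₁, aₙ, b₁, bₘ, xs, ys, hx, hy, hs, -, he⟩
    have hp : ((a₁ + bₘ) :: (xs ++ (aₙ + b₁) :: ys)).Perm (List.replicate (4 * m) k) := by
      rcases he with h | h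
      · exact h.perm.symm
      · rw [List.reverse_replicate] at h; exact h.perm.symm
    have hl := hp.length_eq
    simp only [List.length_cons, List.length_append, List.length_replicate] at hl
    have hxs : xs = List.replicate xs.length k := by
      refine List.eq_replicate_of_mem fun b hb => ?_
      exact List.eq_of_mem_replicate (hp.subset (by simp [hb]))
    have hx0 : 0 < xs.length := List.length_pos_iff.2 hx
    have hy0 : 0 < ys.length := List.length_pos_iff.2 hy
    generalize xs.length = i at hxs hl hx0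
    have hM : M (a₁ :: (xs ++ [aₙ])) 1 1 = -(A k ^ i) 0 0 := by
      have : M (a₁ :: (xs ++ [aₙ])) = A aₙ * (A k ^ i) * A a₁ := by
        rw [← M_rep, ← hxs]; simp [M, mul_assoc]
      rw [this]
      generalize A k ^ i = P
      simp [A, Matrix.mul_apply, Fin.sum_univ_two, Matrix.vecMul, dotProduct]
    have e3 : f3 ((A k ^ i) 0 0) = (A (0 : ZMod 3) ^ (i % 4)) 0 0 := by
      rw [map_pow_A, k3, pow_zero_A]
    have em : fm ((A k ^ i) 0 0) = (i : ZMod m) + 1 := by
      rw [map_pow_A, km, pow_two_A]; simp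
    have h4 : i % 4 < 4 := Nat.mod_lt _ (by norm_num)
    rcases hs with h | h
    · rw [h] at hM
      have hv : (A k ^ i) 0 0 = -1 := by
        simp only [one_apply_eq] at hM; rw [hM, neg_neg]
      rw [hv, map_neg, map_one] at e3 em
      have d4 : 4 ∣ i + 2 := by
        have : i % 4 = 2 := by
          generalize i % 4 = j at e3 h4
          interval_cases j <;> first | rfl | exact absurd e3 (by decide)
        omega
      have dm : m ∣ i + 2 := by
        rw [← ZMod.natCast_eq_zero_iff]; push_cast; linear_combination -em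
      have := Nat.le_of_dvd (by omega) (Nat.Coprime.mul_dvd_of_dvd_of_dvd c4 d4 dm)
      omega
    · rw [h] at hM
      have hv : (A k ^ i) 0 0 = 1 := by
        simp only [Matrix.neg_apply, one_apply_eq, neg_inj] at hM; exact hM.symm
      rw [hv, map_one] at e3 em
      have d4 : 4 ∣ i := by
        have : i % 4 = 0 := by
          generalize i % 4 = j at e3 h4
          interval_cases j <;> first | rfl | exact absurd e3 (by decide)
        omega
      have dm : m ∣ i := by
        rw [← ZMod.natCast_eq_zero_iff]; linear_combination -em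
      have := Nat.le_of_dvd (by omega) (Nat.Coprime.mul_dvd_of_dvd_of_dvd c4 d4 dm)
      omega

end Pool.Agent.Results.MP_8835a9_co.Counter
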